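import Mathlib

set_option autoImplicit false

/-! Cycle covers, expansions of vertices into triangles and covers by four perfect matchings. -/

namespace Pool.Agent.H141.Tri56

variable {V : Type}

/-- `G` is 3-edge-connected: it is connected, and it stays connected after the deletion of any
at most two edges. -/
def ThreeEdgeConnected (G : SimpleGraph V) : Prop :=
  ∀ S : Finset (Sym2 V), S.card ≤ 2 → (G.deleteEdges (S : Set (Sym2 V))).Connected

/-- `F` is a cycle cover of `G`: a finite family (list) of cycles of `G`, given as closed walks,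
such that every edge of `G` lies in at least one of them. -/
def IsCycleCover (G : SimpleGraph V) (F : List (Σ u : V, G.Walk u u)) : Prop :=
  (∀ c ∈ F, c.2.IsCycle) ∧ ∀ e ∈ G.edgeSet, ∃ c ∈ F, e ∈ c.2.edges

/-- The length of a family of closed walks: the sum of the lengths of its members. -/
def coverLength {G : SimpleGraph V} (F : List (Σ u : V, G.Walk u u)) : ℕ :=
  (F.map fun c => c.2.length).sum

/-- `scc G`: the minimum length of a cycle cover of `G` (`⊤` if there is none). -/
noncomputable def scc (G : SimpleGraph V) : ℕ∞ :=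
  ⨅ (F : List (Σ u : V, G.Walk u u)) (_ : IsCycleCover G F), (coverLength F : ℕ∞)

/-- The graph `G_U` obtained from `G` by expanding every vertex of `U` into a triangle. A vertex
`v ∉ U` is the pair `(v, v)`. A vertex `v ∈ U` becomes the vertices `(v, w)`, one for each
neighbour `w` of `v`; they are pairwise adjacent, and `(v, w)` receives the edge from `v` to
`w`. -/
def expand (G : SimpleGraph V) (U : Set V) :
    SimpleGraph {p : V × V // (p.1 ∈ U ∧ G.Adj p.1 p.2) ∨ (p.1 ∉ U ∧ p.2 = p.1)} where
  Adj p q := (p.1.1 = q.1.1 ∧ p.1.2 ≠ q.1.2) ∨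
    (G.Adj p.1.1 q.1.1 ∧ (p.1.1 ∈ U → p.1.2 = q.1.1) ∧ (q.1.1 ∈ U → q.1.2 = p.1.1))
  symm := ⟨by
    intro p q h
    rcases h with ⟨h1, h2⟩ | ⟨h1, h2, h3⟩
    · exact Or.inl ⟨h1.symm, h2.symm⟩
    · exact Or.inr ⟨h1.symm, h3, h2⟩⟩
  loopless := ⟨by
    intro p h
    rcases h with ⟨_, h2⟩ | ⟨h1, _⟩
    · exact h2 rfl
    · exact G.loopless.irrefl _ h1⟩

/-- `H` is 4-PM-coverable: it has four perfect matchings (not necessarily distinct) whose union
is the whole edge set. -/
def FourPMCoverable {W : Type} (H : SimpleGraph W) : Prop :=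
  ∃ M : Fin 4 → H.Subgraph, (∀ i, (M i).IsPerfectMatching) ∧
    ∀ e ∈ H.edgeSet, ∃ i, e ∈ (M i).edgeSet

/-- `T(G)`: the minimum of `|U|` over all sets `U` of vertices such that `G_U` is
4-PM-coverable (`⊤` if there is none). -/
noncomputable def triangleNumber (G : SimpleGraph V) : ℕ∞ :=
  ⨅ (U : Set V) (_ : FourPMCoverable (expand G U)), U.encard

end Pool.Agent.H141.Tri56
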