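import Pool.Agent.H141.Tri56.Data
import Pool.Agent.H141.Tri56.Defs

set_option autoImplicit false

/-! The graph is 3-edge-connected. -/

namespace Pool.Agent.H141.Tri56

open Classical

lemma epS_inj {a b : Fin 84} (h : epS a = epS b) : a = b := by
  by_contra hab
  have ha := ep_lt a
  have hb := ep_lt b
  unfold epS at h
  rw [Sym2.eq_iff] at h
  rcases h with ⟨h1, h2⟩ | ⟨h1, h2⟩
  · have := epOK_true
    unfold epOK at this
    rw [List.all_eq_true] at this
    have h3 := this a (by simp)
    rw [List.all_eq_true] at h3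
    have h4 := h3 b (by simp)
    have e1 : epAL.getD a 0 = epAL.getD b 0 := by
      have k : ∀ a : Fin 84, (epA a).val = epAL.getD a 0 := by decide +kernel
      rw [← k a, ← k b, h1]
    have e2 : epBL.getD a 0 = epBL.getD b 0 := by
      have k : ∀ a : Fin 84, (epB a).val = epBL.getD a 0 := by decide +kernel
      rw [← k a, ← k b, h2]
    rw [e1, e2] at h4
    have hne : a.val ≠ b.val := fun h => hab (Fin.ext h)
    have h5 : Nat.beq a.val b.val = false := by
      rw [Bool.eq_false_iff]
      intro h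
      exact hne (Nat.eq_of_beq_eq_true h)
    rw [h5] at h4
    simp at h4
  · rw [h1, h2] at ha
    exact absurd ha (not_lt.2 hb.le)

lemma sep {a b : Fin 84} (hab : a ≠ b) : ∃ c ∈ sepL, a.val ∈ c.2.2 ∧ b.val ∉ c.2.2 := by
  have := sepOK_true
  unfold sepOK at this
  rw [List.all_eq_true] at this
  have h3 := this a (by simp)
  rw [List.all_eq_true] at h3
  have h4 := h3 b (by simp)
  have hne : a.val ≠ b.val := fun h => hab (Fin.ext h)
  have h5 : Nat.beq a.val b.val = false := by
    rw [Bool.eq_false_iff]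
    intro h
    exact hne (Nat.eq_of_beq_eq_true h)
  rw [h5, Bool.false_or, List.any_eq_true] at h4
  obtain ⟨c, hc, h6⟩ := h4
  rw [Bool.and_eq_true] at h6
  refine ⟨c, hc, (memb_iff _ _).1 h6.1, fun h => ?_⟩
  have := (memb_iff _ _).2 h
  rw [this] at h6
  simp at h6

lemma sep_lt : ∀ c ∈ sepL, ∀ a ∈ c.2.2, a < 84 := by decide +kernel

lemma reach_of_cycle {H : SimpleGraph (Fin 56)} {u : Fin 56} (w : H.Walk u u) (hw : w.IsCycle)
    {x y : Fin 56} (hx : s(x, y) ∈ w.edges) (f : Sym2 (Fin 56))
    (hf : f ∉ w.edges ∨ f = s(x, y)) :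
    (H.deleteEdges {s(x, y), f}).Reachable x y := by
  set D : Set (Sym2 (Fin 56)) := {f} \ {s(x, y)} with hD
  have hwD : ∀ e ∈ w.edges, e ∉ D := by
    intro e he hed
    rcases hf with h | h
    · exact h (hed.1 ▸ he)
    · exact hed.2 (hed.1.trans h)
  have htr : ∀ e ∈ w.edges, e ∈ (H.deleteEdges D).edgeSet := by
    intro e he
    rw [SimpleGraph.edgeSet_deleteEdges]
    exact ⟨SimpleGraph.Walk.edges_subset_edgeSet w he, hwD e he⟩
  have hcyc := SimpleGraph.Walk.IsCycle.transfer hw htr
  have hnb : ¬ (H.deleteEdges D).IsBridge s(x, y) := by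
    rw [SimpleGraph.isBridge_iff_forall_cycle_notMem (htr _ hx)]
    intro h
    apply h _ hcyc
    rw [SimpleGraph.Walk.edges_transfer]
    exact hx
  rw [SimpleGraph.isBridge_iff] at hnb
  have hr : ((H.deleteEdges D).deleteEdges {s(x, y)}).Reachable x y := not_not.1 hnb
  refine hr.mono ?_
  intro p q hpq
  rw [SimpleGraph.deleteEdges_adj]
  rw [SimpleGraph.deleteEdges_adj, SimpleGraph.deleteEdges_adj] at hpq
  refine ⟨hpq.1.1, ?_⟩
  rintro (h | h)
  · exact hpq.2 h
  · by_cases h' : f = s(x, y)
    · exact hpq.2 (by rw [← h']; exact h)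
    · exact hpq.1.2 ⟨h, fun h'' => h' (h ▸ h'')⟩

lemma G_reach (v : Fin 56) : G.Reachable v 0 := by
  have : ∀ n : ℕ, ∀ v : Fin 56, rk v = n → G.Reachable v 0 := by
    intro n
    induction n using Nat.strong_induction_on with
    | _ n ih =>
      intro v hv
      by_cases h0 : v = 0
      · rw [h0]
      · obtain ⟨k, hk⟩ := rk_spec v h0
        exact (adj_nbr v k).reachable.trans (ih _ (hv ▸ hk) _ rfl)
  exact this _ v rfl

lemma del_reach (e f : Sym2 (Fin 56)) {x y : Fin 56} (h : G.Adj x y) :
    (G.deleteEdges {e, f}).Reachable x y := by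
  by_cases hm : s(x, y) = e ∨ s(x, y) = f
  · have key : ∀ f : Sym2 (Fin 56), (G.deleteEdges {s(x, y), f}).Reachable x y := by
      intro f
      obtain ⟨a, ha⟩ := mem_edgeSet s(x, y) h
      by_cases hfe : f = s(x, y)
      · -- any cycle through the edge
        have : ∃ b : Fin 84, a ≠ b := by
          by_cases h0 : a = 0
          · exact ⟨1, by rw [h0]; decide⟩
          · exact ⟨0, h0⟩
        obtain ⟨b, hb⟩ := this
        obtain ⟨c, hc, h1, _⟩ := sep hb
        obtain ⟨ok, he⟩ := sepL_ok c hc
        obtain ⟨w, w1, w2, _⟩ := exists_cycle _ _ ok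
        refine reach_of_cycle w w1 ?_ f (Or.inr hfe)
        rw [w2, he, ha]
        exact List.mem_map.2 ⟨a.val, h1, rfl⟩
      · by_cases hfG : f ∈ G.edgeSet
        · obtain ⟨b, hb⟩ := mem_edgeSet f hfG
          have hab : a ≠ b := by
            rintro rfl
            exact hfe (hb.trans ha.symm)
          obtain ⟨c, hc, h1, h2⟩ := sep hab
          obtain ⟨ok, he⟩ := sepL_ok c hc
          obtain ⟨w, w1, w2, _⟩ := exists_cycle _ _ ok
          refine reach_of_cycle w w1 ?_ f (Or.inl ?_)
          · rw [w2, he, ha]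
            exact List.mem_map.2 ⟨a.val, h1, rfl⟩
          · rw [w2, he, hb]
            intro hmem
            obtain ⟨d, hd, hd'⟩ := List.mem_map.1 hmem
            have hlt := sep_lt c hc d hd
            have : (⟨d, hlt⟩ : Fin 84) = b := epS_inj hd'
            apply h2
            rw [← this]
            exact hd
        · have : ∃ b : Fin 84, a ≠ b := by
            by_cases h0 : a = 0
            · exact ⟨1, by rw [h0]; decide⟩
            · exact ⟨0, h0⟩
          obtain ⟨b, hb⟩ := this
          obtain ⟨c, hc, h1, _⟩ := sep hb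
          obtain ⟨ok, he⟩ := sepL_ok c hc
          obtain ⟨w, w1, w2, _⟩ := exists_cycle _ _ ok
          refine reach_of_cycle w w1 ?_ f (Or.inl ?_)
          · rw [w2, he, ha]
            exact List.mem_map.2 ⟨a.val, h1, rfl⟩
          · intro hmem
            exact hfG (SimpleGraph.Walk.edges_subset_edgeSet w hmem)
    rcases hm with rfl | rfl
    · exact key f
    · rw [Set.pair_comm]
      exact key e
  · push Not at hm
    apply SimpleGraph.Adj.reachable
    rw [SimpleGraph.deleteEdges_adj]
    refine ⟨h, ?_⟩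
    rintro (h' | h')
    · exact hm.1 h'
    · exact hm.2 h'

lemma del_connected (e f : Sym2 (Fin 56)) : (G.deleteEdges {e, f}).Connected := by
  have step : ∀ {x y : Fin 56}, G.Reachable x y → (G.deleteEdges {e, f}).Reachable x y := by
    intro x y h
    obtain ⟨w⟩ := h
    induction w with
    | nil => exact SimpleGraph.Reachable.refl _
    | cons h _ ih => exact (del_reach e f h).trans ih
  exact ⟨fun x y => step ((G_reach x).trans (G_reach y).symm)⟩

lemma G_three : ThreeEdgeConnected G := by
  intro S hS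
  have : ∃ e f : Sym2 (Fin 56), (S : Set (Sym2 (Fin 56))) ⊆ {e, f} := by
    interval_cases hn : S.card
    · rw [Finset.card_eq_zero] at hn
      subst hn
      exact ⟨s(0, 0), s(0, 0), by simp⟩
    · obtain ⟨a, rfl⟩ := Finset.card_eq_one.1 hn
      exact ⟨a, a, by simp⟩
    · obtain ⟨a, b, _, rfl⟩ := Finset.card_eq_two.1 hn
      exact ⟨a, b, by simp⟩
  obtain ⟨e, f, hef⟩ := this
  exact (del_connected e f).mono (SimpleGraph.deleteEdges_anti hef)

end Pool.Agent.H141.Tri56
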