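import Pool.Agent.H141.Tri56.Data

set_option autoImplicit false

/-! The combinatorial core: at least three vertices must be expanded. -/

namespace Pool.Agent.H141.Tri56

/-- the sum of the values at the edges at `v` -/
def sv (x : Fin 84 → ℕ) (v : Fin 56) : ℕ := x (inc v 0) + x (inc v 1) + x (inc v 2)

lemma sv_0 (x : Fin 84 → ℕ) : sv x 0 = x 0 + x 1 + x 2 := rfl
lemma sv_1 (x : Fin 84 → ℕ) : sv x 1 = x 0 + x 3 + x 4 := rfl
lemma sv_2 (x : Fin 84 → ℕ) : sv x 2 = x 3 + x 5 + x 6 := rfl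

lemma vs_phi (x : Fin 84 → ℕ) (p : Fin 6) (l : Fin 10) (h : real p l = true) :
    vs (fun e => x (phi p e)) l = sv x (vt p l) := by
  show x (phi p (incP l 0)) + x (phi p (incP l 1)) + x (phi p (incP l 2)) = _
  unfold sv
  rw [phi_inc p l h 0, phi_inc p l h 1, phi_inc p l h 2]

lemma hlevel (m0 m1 m2 m3 m4 m5 m6 m14 m30 m43 m56 ct cp cpp c1 c2 c3 c4 : ℕ)
    (h0 : 1 ≤ m0 ∧ m0 ≤ 2) (h1 : 1 ≤ m1 ∧ m1 ≤ 2) (h2 : 1 ≤ m2 ∧ m2 ≤ 2)
    (h3 : 1 ≤ m3 ∧ m3 ≤ 2) (h4 : 1 ≤ m4 ∧ m4 ≤ 2) (h5 : 1 ≤ m5 ∧ m5 ≤ 2)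
    (h6 : 1 ≤ m6 ∧ m6 ≤ 2) (h14 : 1 ≤ m14 ∧ m14 ≤ 2)
    (h30 : 1 ≤ m30 ∧ m30 ≤ 2) (h43 : 1 ≤ m43 ∧ m43 ≤ 2) (h56 : 1 ≤ m56 ∧ m56 ≤ 2)
    (ht : m0 + m1 + m2 = 4 ∨ (m0 + m1 + m2 = 6 ∧ 1 ≤ ct))
    (hp : m0 + m3 + m4 = 4 ∨ (m0 + m3 + m4 = 6 ∧ 1 ≤ cp))
    (hpp : m3 + m5 + m6 = 4 ∨ (m3 + m5 + m6 = 6 ∧ 1 ≤ cpp))
    (hQ1 : m1 + m14 + 2 = 6 ∨ (m1 + m14 + 2 = 4 ∧ 1 ≤ c1))
    (hQ2 : m2 + m14 + m30 = 6 ∨ (m2 + m14 + m30 = 4 ∧ 1 ≤ c2))
    (hQ3 : m30 + m4 + m43 = 6 ∨ (m30 + m4 + m43 = 4 ∧ 1 ≤ c3))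
    (hQ4 : m43 + m5 + m56 = 6 ∨ (m43 + m5 + m56 = 4 ∧ 1 ≤ c4))
    (hR : m56 + 2 + m6 = 4 ∨ m56 + 2 + m6 = 6) :
    3 ≤ ct + cp + cpp + c1 + c2 + c3 + c4 := by omega

lemma four {a b c d : ℕ} (ha : a = 1 ∨ a = 3) (hb : b = 1 ∨ b = 3) (hc : c = 1 ∨ c = 3)
    (hd : d = 1 ∨ d = 3) (h : a + b + c + d ≤ 6) : a + b + c + d = 4 ∨ a + b + c + d = 6 := by
  omega

open Classical in
theorem core (x : Fin 4 → Fin 84 → ℕ) (h0 : ∀ i e, x i e ≤ 1)
    (hodd : ∀ i v, sv (x i) v = 1 ∨ sv (x i) v = 3)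
    (h1 : ∀ e, 1 ≤ x 0 e + x 1 e + x 2 e + x 3 e)
    (h2 : ∀ e, x 0 e + x 1 e + x 2 e + x 3 e ≤ 2)
    (U : Finset (Fin 56)) (hU : ∀ v, v ∉ U → ∀ i, sv (x i) v = 1) : 3 ≤ U.card := by
  have hmem : ∀ v, sv (x 0) v + sv (x 1) v + sv (x 2) v + sv (x 3) v = 6 → v ∈ U := by
    intro v hv
    by_contra hn
    rw [hU v hn 0, hU v hn 1, hU v hn 2, hU v hn 3] at hv
    omega
  -- the image of `U` under the block map
  set I : Finset (Fin 9) := U.image blk with hI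
  have hIc : I.card ≤ U.card := Finset.card_image_le
  set c : Fin 9 → ℕ := fun j => if j ∈ I then 1 else 0 with hc
  have hcard : I.card = c 0 + c 1 + c 2 + c 3 + c 4 + c 5 + c 6 + c 7 + c 8 := by
    have : I.card = ∑ j : Fin 9, c j := by
      rw [hc]
      simp
    rw [this]
    simp only [Fin.sum_univ_succ, Fin.sum_univ_zero]
    simp only [Fin.succ_zero_eq_one, Fin.succ_one_eq_two, Fin.reduceSucc]
    omega
  have cpos : ∀ v, v ∈ U → c (blk v) = 1 := by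
    intro v hv
    have : blk v ∈ I := Finset.mem_image_of_mem _ hv
    simp [hc, this]
  -- pieces
  have piece : ∀ p : Fin 6,
      (∀ i, ∀ l : Fin 10, l ≠ 0 → vs (fun e => x i (phi p e)) l = 1 ∨
        vs (fun e => x i (phi p e)) l = 3) →
      (∀ i, vs (fun e => x i (phi p e)) 0 = 1 ∨ vs (fun e => x i (phi p e)) 0 = 3) ∧
      ∃ l : Fin 10, vs (fun e => x 0 (phi p e)) l + vs (fun e => x 1 (phi p e)) l
        + vs (fun e => x 2 (phi p e)) l + vs (fun e => x 3 (phi p e)) l = 6 := by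
    intro p hp
    exact petersen (fun i e => x i (phi p e)) (fun i e => h0 i _) hp (fun e => h1 _)
      (fun e => h2 _)
  have hreal : ∀ p : Fin 6, ∀ l : Fin 10, real p l = true →
      vs (fun e => x 0 (phi p e)) l + vs (fun e => x 1 (phi p e)) l
        + vs (fun e => x 2 (phi p e)) l + vs (fun e => x 3 (phi p e)) l = 6 →
      ∃ v ∈ U, (blk v).val = 3 + p.val := by
    intro p l hl h6
    rw [vs_phi _ p l hl, vs_phi _ p l hl, vs_phi _ p l hl, vs_phi _ p l hl] at h6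
    exact ⟨vt p l, hmem _ h6, blk_vt p l hl⟩
  have hQ : ∀ p : Fin 6, p ≠ 5 →
      (∀ i, vs (fun e => x i (phi p e)) 0 = 1 ∨ vs (fun e => x i (phi p e)) 0 = 3) ∧
      (vs (fun e => x 0 (phi p e)) 0 + vs (fun e => x 1 (phi p e)) 0
        + vs (fun e => x 2 (phi p e)) 0 + vs (fun e => x 3 (phi p e)) 0 = 6 ∨
       ∃ v ∈ U, (blk v).val = 3 + p.val) := by
    intro p hp5
    have hr : ∀ l : Fin 10, l ≠ 0 → real p l = true := by
      revert p
      decide +kernel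
    obtain ⟨a1, l, hl⟩ := piece p (fun i l hl => by
      rw [vs_phi _ p l (hr l hl)]; exact hodd i _)
    refine ⟨a1, ?_⟩
    by_cases hl0 : l = 0
    · left; rw [← hl0]; exact hl
    · right; exact hreal p l (hr l hl0) hl
  have Q1 := hQ 0 (by decide)
  have Q2 := hQ 1 (by decide)
  have Q3 := hQ 2 (by decide)
  have Q4 := hQ 3 (by decide)
  have Q5 := hQ 4 (by decide)
  have e1 : ∀ i, vs (fun e => x i (phi 0 e)) 0 = x i 1 + x i 17 + x i 14 := fun i => rfl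
  have e2 : ∀ i, vs (fun e => x i (phi 1 e)) 0 = x i 2 + x i 30 + x i 14 := fun i => rfl
  have e3 : ∀ i, vs (fun e => x i (phi 2 e)) 0 = x i 30 + x i 43 + x i 4 := fun i => rfl
  have e4 : ∀ i, vs (fun e => x i (phi 3 e)) 0 = x i 43 + x i 56 + x i 5 := fun i => rfl
  have e5 : ∀ i, vs (fun e => x i (phi 4 e)) 0 = x i 62 + x i 17 + x i 68 := fun i => rfl
  have e6 : ∀ i, vs (fun e => x i (phi 5 e)) 0 = x i 56 + x i 6 + x i 17 := fun i => rfl
  have e7 : ∀ i, vs (fun e => x i (phi 5 e)) 4 = x i 62 + x i 17 + x i 68 := fun i => rfl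
  have hr5 : ∀ l : Fin 10, l ≠ 0 → l ≠ 4 → real 5 l = true := by decide +kernel
  obtain ⟨R1, l, hl⟩ := piece 5 (fun i l hl => by
    by_cases h4 : l = 4
    · subst h4
      rw [e7 i, ← e5 i]
      exact Q5.1 i
    · rw [vs_phi _ 5 l (hr5 l hl h4)]; exact hodd i _)
  simp only [e1] at Q1
  simp only [e2] at Q2
  simp only [e3] at Q3
  simp only [e4] at Q4
  simp only [e5] at Q5
  simp only [e6] at R1
  have blkc : ∀ j : ℕ, ∀ hj : j < 9, (∃ v ∈ U, (blk v).val = j) → c ⟨j, hj⟩ = 1 := by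
    rintro j hj ⟨v, hv, hb⟩
    have : blk v = ⟨j, hj⟩ := Fin.ext hb
    rw [← this]
    exact cpos v hv
  have t0 : sv (x 0) 0 + sv (x 1) 0 + sv (x 2) 0 + sv (x 3) 0 = 6 → c 0 = 1 := by
    intro h; exact cpos 0 (hmem 0 h)
  have t1 : sv (x 0) 1 + sv (x 1) 1 + sv (x 2) 1 + sv (x 3) 1 = 6 → c 1 = 1 := by
    intro h; exact cpos 1 (hmem 1 h)
  have t2 : sv (x 0) 2 + sv (x 1) 2 + sv (x 2) 2 + sv (x 3) 2 = 6 → c 2 = 1 := by
    intro h; exact cpos 2 (hmem 2 h)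
  have Qc1 : (∃ v ∈ U, (blk v).val = 3 + (0 : Fin 6).val) → c 3 = 1 := blkc 3 (by norm_num)
  have Qc2 : (∃ v ∈ U, (blk v).val = 3 + (1 : Fin 6).val) → c 4 = 1 := blkc 4 (by norm_num)
  have Qc3 : (∃ v ∈ U, (blk v).val = 3 + (2 : Fin 6).val) → c 5 = 1 := blkc 5 (by norm_num)
  have Qc4 : (∃ v ∈ U, (blk v).val = 3 + (3 : Fin 6).val) → c 6 = 1 := blkc 6 (by norm_num)
  have Qc5 : (∃ v ∈ U, (blk v).val = 3 + (4 : Fin 6).val) → c 7 = 1 := blkc 7 (by norm_num)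
  have Qc6 : (∃ v ∈ U, (blk v).val = 3 + (5 : Fin 6).val) → c 8 = 1 := blkc 8 (by norm_num)
  have b0 := And.intro (h1 0) (h2 0)
  have b1 := And.intro (h1 1) (h2 1)
  have b2 := And.intro (h1 2) (h2 2)
  have b3 := And.intro (h1 3) (h2 3)
  have b4 := And.intro (h1 4) (h2 4)
  have b5 := And.intro (h1 5) (h2 5)
  have b6 := And.intro (h1 6) (h2 6)
  have b14 := And.intro (h1 14) (h2 14)
  have b17 := And.intro (h1 17) (h2 17)
  have b30 := And.intro (h1 30) (h2 30)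
  have b43 := And.intro (h1 43) (h2 43)
  have b56 := And.intro (h1 56) (h2 56)
  have b62 := And.intro (h1 62) (h2 62)
  have b68 := And.intro (h1 68) (h2 68)
  have s1 := four (Q1.1 0) (Q1.1 1) (Q1.1 2) (Q1.1 3) (by omega)
  have s2 := four (Q2.1 0) (Q2.1 1) (Q2.1 2) (Q2.1 3) (by omega)
  have s3 := four (Q3.1 0) (Q3.1 1) (Q3.1 2) (Q3.1 3) (by omega)
  have s4 := four (Q4.1 0) (Q4.1 1) (Q4.1 2) (Q4.1 3) (by omega)
  have s5 := four (Q5.1 0) (Q5.1 1) (Q5.1 2) (Q5.1 3) (by omega)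
  have s6 := four (R1 0) (R1 1) (R1 2) (R1 3) (by omega)
  have st0 := four (hodd 0 0) (hodd 1 0) (hodd 2 0) (hodd 3 0) (by simp only [sv_0]; omega)
  have st1 := four (hodd 0 1) (hodd 1 1) (hodd 2 1) (hodd 3 1) (by simp only [sv_1]; omega)
  have st2 := four (hodd 0 2) (hodd 1 2) (hodd 2 2) (hodd 3 2) (by simp only [sv_2]; omega)
  have q1 := Q1.2.imp_right Qc1
  have q2 := Q2.2.imp_right Qc2
  have q3 := Q3.2.imp_right Qc3
  have q4 := Q4.2.imp_right Qc4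
  have q5 := Q5.2.imp_right Qc5
  have hRR : (x 0 56 + x 0 6 + x 0 17) + (x 1 56 + x 1 6 + x 1 17) + (x 2 56 + x 2 6 + x 2 17)
      + (x 3 56 + x 3 6 + x 3 17) = 6 ∨
      (x 0 62 + x 0 17 + x 0 68) + (x 1 62 + x 1 17 + x 1 68) + (x 2 62 + x 2 17 + x 2 68)
      + (x 3 62 + x 3 17 + x 3 68) = 6 ∨ c 8 = 1 := by
    by_cases hl0 : l = 0
    · left
      rw [hl0] at hl
      simpa only [e6] using hl
    · by_cases hl4 : l = 4
      · right; left
        rw [hl4] at hl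
        simpa only [e7] using hl
      · right; right
        exact Qc6 (hreal 5 l (hr5 l hl0 hl4) hl)
  clear_value c
  simp only [sv_0] at t0 st0
  simp only [sv_1] at t1 st1
  simp only [sv_2] at t2 st2
  clear hodd hmem hU piece hreal hQ e1 e2 e3 e4 e5 e6 e7 hr5 hl blkc cpos h0
  by_cases hstar : x 0 17 + x 1 17 + x 2 17 + x 3 17 = 1
  · have r1 : c 3 = 1 := by
      rcases q1 with h | h
      · exfalso; omega
      · exact h
    have r5 : c 7 = 1 := by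
      rcases q5 with h | h
      · exfalso; omega
      · exact h
    have r8 : c 8 = 1 := by
      rcases hRR with h | h | h
      · exfalso; omega
      · exfalso; omega
      · exact h
    omega
  · have hs2 : x 0 17 + x 1 17 + x 2 17 + x 3 17 = 2 := by omega
    have := hlevel (x 0 0 + x 1 0 + x 2 0 + x 3 0) (x 0 1 + x 1 1 + x 2 1 + x 3 1)
      (x 0 2 + x 1 2 + x 2 2 + x 3 2) (x 0 3 + x 1 3 + x 2 3 + x 3 3)
      (x 0 4 + x 1 4 + x 2 4 + x 3 4) (x 0 5 + x 1 5 + x 2 5 + x 3 5)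
      (x 0 6 + x 1 6 + x 2 6 + x 3 6) (x 0 14 + x 1 14 + x 2 14 + x 3 14)
      (x 0 30 + x 1 30 + x 2 30 + x 3 30) (x 0 43 + x 1 43 + x 2 43 + x 3 43)
      (x 0 56 + x 1 56 + x 2 56 + x 3 56) (c 0) (c 1) (c 2) (c 3) (c 4) (c 5) (c 6)
      b0 b1 b2 b3 b4 b5 b6 b14 b30 b43 b56
      (by rcases st0 with h | h
          · left; omega
          · right; exact ⟨by omega, (t0 h).ge⟩)
      (by rcases st1 with h | h
          · left; omega
          · right; exact ⟨by omega, (t1 h).ge⟩)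
      (by rcases st2 with h | h
          · left; omega
          · right; exact ⟨by omega, (t2 h).ge⟩)
      (by rcases q1 with h | h
          · left; omega
          · rcases s1 with h' | h'
            · right; exact ⟨by omega, h.ge⟩
            · left; omega)
      (by rcases q2 with h | h
          · left; omega
          · rcases s2 with h' | h'
            · right; exact ⟨by omega, h.ge⟩
            · left; omega)
      (by rcases q3 with h | h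
          · left; omega
          · rcases s3 with h' | h'
            · right; exact ⟨by omega, h.ge⟩
            · left; omega)
      (by rcases q4 with h | h
          · left; omega
          · rcases s4 with h' | h'
            · right; exact ⟨by omega, h.ge⟩
            · left; omega)
      (by rcases s6 with h | h
          · left; omega
          · right; omega)
    omega

end Pool.Agent.H141.Tri56
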