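import Pool.Agent.H141.Tri56.P10

set_option autoImplicit false

/-! A cubic graph on 56 vertices: an 8-vertex cubic graph in which four vertices are replaced by
the Petersen graph minus a vertex and one by a larger piece made of two Petersen graphs. -/

namespace Pool.Agent.H141.Tri56

def nbrL : List ℕ :=
  [1, 3, 12, 0, 2, 24, 1, 33, 51, 0, 4, 8, 3, 5, 9, 4, 6, 10, 5, 15, 11, 9, 43, 10, 10, 3, 11, 7,
    11, 4, 8, 7, 5, 9, 8, 6, 0, 13, 17, 12, 14, 18, 13, 15, 19, 14, 6, 20, 18, 21, 19, 19, 12, 20,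
    16, 20, 13, 17, 16, 14, 18, 17, 15, 16, 22, 26, 21, 23, 27, 22, 24, 28, 23, 1, 29, 27, 30, 28,
    28, 21, 29, 25, 29, 22, 26, 25, 23, 27, 26, 24, 25, 31, 35, 30, 32, 36, 31, 33, 37, 32, 2, 38,
    36, 48, 37, 37, 30, 38, 34, 38, 31, 35, 34, 32, 36, 35, 33, 50, 40, 44, 39, 41, 45, 40, 42, 46,
    41, 55, 47, 45, 7, 46, 46, 39, 47, 43, 47, 40, 44, 43, 41, 45, 44, 42, 34, 49, 52, 48, 50, 53,
    49, 39, 54, 53, 2, 54, 54, 48, 55, 51, 55, 49, 52, 51, 50, 53, 52, 42]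

def incL : List ℕ :=
  [0, 1, 2, 0, 3, 4, 3, 5, 6, 1, 7, 8, 7, 9, 10, 9, 11, 12, 11, 14, 13, 15, 17, 16, 18, 8, 19, 15,
    20, 10, 18, 16, 12, 20, 19, 13, 2, 21, 22, 21, 23, 24, 23, 25, 26, 25, 14, 27, 28, 30, 29, 31,
    22, 32, 28, 33, 24, 31, 29, 26, 33, 32, 27, 30, 34, 35, 34, 36, 37, 36, 38, 39, 38, 4, 40, 41,
    43, 42, 44, 35, 45, 41, 46, 37, 44, 42, 39, 46, 45, 40, 43, 47, 48, 47, 49, 50, 49, 51, 52, 51,
    5, 53, 54, 56, 55, 57, 48, 58, 54, 59, 50, 57, 55, 52, 59, 58, 53, 62, 60, 61, 60, 63, 64, 63,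
    65, 66, 65, 68, 67, 69, 17, 70, 71, 61, 72, 69, 73, 64, 71, 70, 66, 73, 72, 67, 56, 74, 75, 74,
    76, 77, 76, 62, 78, 79, 6, 80, 81, 75, 82, 79, 83, 77, 81, 80, 78, 83, 82, 68]

def epAL : List ℕ :=
  [0, 0, 0, 1, 1, 2, 2, 3, 3, 4, 4, 5, 5, 6, 6, 7, 7, 7, 8, 8, 9, 12, 12, 13, 13, 14, 14, 15, 16,
    16, 16, 17, 17, 18, 21, 21, 22, 22, 23, 23, 24, 25, 25, 25, 26, 26, 27, 30, 30, 31, 31, 32, 32,
    33, 34, 34, 34, 35, 35, 36, 39, 39, 39, 40, 40, 41, 41, 42, 42, 43, 43, 44, 44, 45, 48, 48, 49,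
    49, 50, 51, 51, 52, 52, 53]

def epBL : List ℕ :=
  [1, 3, 12, 2, 24, 33, 51, 4, 8, 5, 9, 6, 10, 11, 15, 9, 10, 43, 10, 11, 11, 13, 17, 14, 18, 15,
    19, 20, 18, 19, 21, 19, 20, 20, 22, 26, 23, 27, 24, 28, 29, 27, 28, 30, 28, 29, 29, 31, 35, 32,
    36, 33, 37, 38, 36, 37, 48, 37, 38, 38, 40, 44, 50, 41, 45, 42, 46, 47, 55, 45, 46, 46, 47, 47,
    49, 52, 50, 53, 54, 53, 54, 54, 55, 55]

def phiL : List ℕ :=
  [1, 15, 17, 7, 18, 8, 9, 20, 10, 11, 16, 12, 14, 19, 13, 2, 28, 30, 21, 31, 22, 23, 33, 24, 25,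
    29, 26, 14, 32, 27, 30, 41, 43, 34, 44, 35, 36, 46, 37, 38, 42, 39, 4, 45, 40, 43, 54, 56, 47,
    57, 48, 49, 59, 50, 51, 55, 52, 5, 58, 53, 62, 69, 17, 60, 71, 61, 63, 73, 64, 65, 70, 66, 68,
    72, 67, 56, 79, 6, 74, 81, 75, 76, 83, 77, 62, 80, 78, 17, 82, 68]

def vtL : List ℕ :=
  [0, 3, 4, 5, 6, 7, 8, 9, 10, 11, 0, 12, 13, 14, 15, 16, 17, 18, 19, 20, 0, 21, 22, 23, 24, 25,
    26, 27, 28, 29, 0, 30, 31, 32, 33, 34, 35, 36, 37, 38, 0, 39, 40, 41, 42, 43, 44, 45, 46, 47, 0,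
    48, 49, 50, 0, 51, 52, 53, 54, 55]

def blkL : List ℕ :=
  [0, 1, 2, 3, 3, 3, 3, 3, 3, 3, 3, 3, 4, 4, 4, 4, 4, 4, 4, 4, 4, 5, 5, 5, 5, 5, 5, 5, 5, 5, 6, 6,
    6, 6, 6, 6, 6, 6, 6, 7, 7, 7, 7, 7, 7, 7, 7, 7, 8, 8, 8, 8, 8, 8, 8, 8]

def rkL : List ℕ :=
  [0, 1, 2, 1, 2, 3, 4, 4, 2, 3, 3, 3, 1, 2, 3, 4, 4, 2, 3, 3, 3, 5, 4, 3, 2, 5, 4, 4, 4, 3, 6, 5,
    4, 3, 6, 5, 5, 5, 4, 6, 7, 7, 6, 5, 7, 6, 6, 7, 6, 5, 5, 3, 5, 4, 4, 5]

/-- the `k`-th neighbour of `v` -/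
def nbr (v : Fin 56) (k : Fin 3) : Fin 56 := Fin.ofNat 56 (nbrL.getD (3 * v.val + k.val) 0)

/-- the (index of the) edge from `v` to its `k`-th neighbour -/
def inc (v : Fin 56) (k : Fin 3) : Fin 84 := Fin.ofNat 84 (incL.getD (3 * v.val + k.val) 0)

def epA (e : ℕ) : Fin 56 := Fin.ofNat 56 (epAL.getD e 0)
def epB (e : ℕ) : Fin 56 := Fin.ofNat 56 (epBL.getD e 0)
def phi (p : Fin 6) (e : Fin 15) : Fin 84 := Fin.ofNat 84 (phiL.getD (15 * p.val + e.val) 0)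
def vt (p : Fin 6) (l : Fin 10) : Fin 56 := Fin.ofNat 56 (vtL.getD (10 * p.val + l.val) 0)
def real (p : Fin 6) (l : Fin 10) : Bool :=
  !(l.val == 0) && !(p.val == 5 && l.val == 4)
def blk (v : Fin 56) : Fin 9 := Fin.ofNat 9 (blkL.getD v.val 0)
def rk (v : Fin 56) : ℕ := rkL.getD v.val 0

lemma nbr_symm : ∀ v k, ∃ j, nbr (nbr v k) j = v := by decide +kernel
lemma nbr_ne : ∀ v k, nbr v k ≠ v := by decide +kernel
lemma nbr_distinct : ∀ v, nbr v 0 ≠ nbr v 1 ∧ nbr v 0 ≠ nbr v 2 ∧ nbr v 1 ≠ nbr v 2 := by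
  decide +kernel
lemma ep_inc : ∀ v k, (epA (inc v k) = v ∧ epB (inc v k) = nbr v k) ∨
    (epA (inc v k) = nbr v k ∧ epB (inc v k) = v) := by decide +kernel
lemma inc_surj : ∀ e : Fin 84, ∃ k, inc (epA e) k = e := by decide +kernel
lemma phi_inc : ∀ p l, real p l = true → ∀ k, phi p (incP l k) = inc (vt p l) k := by
  decide +kernel
lemma blk_vt : ∀ p l, real p l = true →
    (blk (vt p l)).val = 3 + p.val := by decide +kernel
lemma rk_spec : ∀ v, v ≠ 0 → ∃ k, rk (nbr v k) < rk v := by decide +kernel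

/-- The graph. -/
def G : SimpleGraph (Fin 56) where
  Adj x y := ∃ k, nbr x k = y
  symm := ⟨fun x y ⟨k, h⟩ => h ▸ nbr_symm x k⟩
  loopless := ⟨fun x ⟨k, h⟩ => nbr_ne x k h⟩

instance : DecidableRel G.Adj := fun x y => by unfold G; infer_instance

lemma adj_nbr (v : Fin 56) (k : Fin 3) : G.Adj v (nbr v k) := ⟨k, rfl⟩

lemma adj_iff (v w : Fin 56) : G.Adj v w ↔ w = nbr v 0 ∨ w = nbr v 1 ∨ w = nbr v 2 := by
  constructor
  · rintro ⟨k, rfl⟩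
    fin_cases k
    · exact Or.inl rfl
    · exact Or.inr (Or.inl rfl)
    · exact Or.inr (Or.inr rfl)
  · rintro (rfl | rfl | rfl)
    · exact ⟨0, rfl⟩
    · exact ⟨1, rfl⟩
    · exact ⟨2, rfl⟩

/-- the edge with index `e` -/
def epS (e : ℕ) : Sym2 (Fin 56) := s(epA e, epB e)

lemma epS_inc (v : Fin 56) (k : Fin 3) : epS (inc v k) = s(v, nbr v k) := by
  unfold epS
  rcases ep_inc v k with ⟨h1, h2⟩ | ⟨h1, h2⟩
  · rw [h1, h2]
  · rw [h1, h2, Sym2.eq_swap]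

lemma mem_edgeSet (e : Sym2 (Fin 56)) (he : e ∈ G.edgeSet) : ∃ a : Fin 84, e = epS a := by
  induction e with
  | _ x y =>
    obtain ⟨k, hk⟩ : ∃ k, nbr x k = y := he
    exact ⟨inc x k, by rw [epS_inc, hk]⟩

lemma epS_mem (a : Fin 84) : epS a ∈ G.edgeSet := by
  obtain ⟨k, hk⟩ := inc_surj a
  rw [← hk, epS_inc]
  exact adj_nbr _ _

/-! ### Closed walks from lists -/

def chainB : Fin 56 → List (Fin 56) → Fin 56 → Bool
  | x, [], z => decide (G.Adj x z)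
  | x, y :: l, z => decide (G.Adj x y) && chainB y l z

def eds : Fin 56 → List (Fin 56) → Fin 56 → List (Sym2 (Fin 56))
  | x, [], z => [s(x, z)]
  | x, y :: l, z => s(x, y) :: eds y l z

lemma exists_walk (l : List (Fin 56)) : ∀ (x z : Fin 56), chainB x l z = true →
    ∃ w : G.Walk x z, w.edges = eds x l z ∧ w.support = x :: (l ++ [z]) ∧
      w.length = l.length + 1 := by
  induction l with
  | nil =>
    intro x z h
    simp only [chainB, decide_eq_true_eq] at h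
    exact ⟨.cons h .nil, rfl, rfl, rfl⟩
  | cons y l ih =>
    intro x z h
    simp only [chainB, Bool.and_eq_true, decide_eq_true_eq] at h
    obtain ⟨w, h1, h2, h3⟩ := ih y z h.2
    refine ⟨.cons h.1 w, ?_, ?_, ?_⟩
    · rw [SimpleGraph.Walk.edges_cons, h1]; rfl
    · rw [SimpleGraph.Walk.support_cons, h2]; rfl
    · rw [SimpleGraph.Walk.length_cons, h3]; rfl

def okB (x : Fin 56) (l : List (Fin 56)) : Bool :=
  chainB x l x && decide ((l ++ [x]).Nodup) && decide ((eds x l x).Nodup)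

lemma exists_cycle (x : Fin 56) (l : List (Fin 56)) (h : okB x l = true) :
    ∃ w : G.Walk x x, w.IsCycle ∧ w.edges = eds x l x ∧ w.length = l.length + 1 := by
  unfold okB at h
  simp only [Bool.and_eq_true, decide_eq_true_eq] at h
  obtain ⟨w, h1, h2, h3⟩ := exists_walk l x x h.1.1
  refine ⟨w, ?_, h1, h3⟩
  rw [SimpleGraph.Walk.isCycle_def]
  refine ⟨?_, ?_, ?_⟩
  · rw [SimpleGraph.Walk.isTrail_def, h1]; exact h.2
  · rintro rfl
    simp at h3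
  · rw [h2]; exact h.1.2

lemma fam_exists (L : List (Fin 56 × List (Fin 56))) (h : ∀ p ∈ L, okB p.1 p.2 = true) :
    ∃ F : List (Σ u : Fin 56, G.Walk u u), (∀ c ∈ F, c.2.IsCycle) ∧
      (∀ p ∈ L, ∃ c ∈ F, c.2.edges = eds p.1 p.2 p.1) ∧
      (F.map fun c => c.2.length).sum = (L.map fun p => p.2.length + 1).sum := by
  induction L with
  | nil => exact ⟨[], by simp, by simp, rfl⟩
  | cons p L ih =>
    obtain ⟨F, h1, h2, h3⟩ := ih (fun q hq => h q (List.mem_cons_of_mem _ hq))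
    obtain ⟨w, w1, w2, w3⟩ := exists_cycle p.1 p.2 (h p (by simp))
    refine ⟨⟨p.1, w⟩ :: F, ?_, ?_, ?_⟩
    · intro c hc
      rcases List.mem_cons.1 hc with rfl | hc
      · exact w1
      · exact h1 c hc
    · intro q hq
      rcases List.mem_cons.1 hq with rfl | hq
      · exact ⟨⟨q.1, w⟩, by simp, w2⟩
      · obtain ⟨c, hc, e⟩ := h2 q hq
        exact ⟨c, List.mem_cons_of_mem _ hc, e⟩
    · rw [List.map_cons, List.sum_cons, List.map_cons, List.sum_cons, h3]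
      simp only [w3]

/-- the six cycles of the short cover -/
def covL : List (Fin 56 × List (Fin 56)) :=
  [(0, [1, 24, 23, 28, 25, 30, 31, 36, 34, 48, 49, 53, 51, 54, 50, 39, 40, 41, 42, 47, 44, 46, 43, 7, 9, 4, 3, 8, 11, 6, 15, 20, 17, 12]),
   (0, [3, 4, 5, 10, 7, 43, 45, 40, 41, 46, 44, 39, 50, 49, 53, 55, 52, 48, 34, 37, 32, 33, 2, 1, 24, 29, 26, 21, 16, 18, 13, 12]),
   (2, [33, 38, 35, 30, 25, 27, 22, 21, 16, 19, 14, 15, 6, 5, 10, 8, 11, 9, 7, 43, 45, 47, 42, 55, 52, 54, 51]),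
   (13, [14, 19, 17, 20, 18]),
   (22, [23, 28, 26, 29, 27]),
   (31, [32, 37, 35, 38, 36])]

lemma covL_ok : ∀ p ∈ covL, okB p.1 p.2 = true := by decide +kernel
lemma covL_len : (covL.map fun p => p.2.length + 1).sum = 114 := by decide +kernel
lemma covL_covers : ∀ v k, ∃ p ∈ covL, s(v, nbr v k) ∈ eds p.1 p.2 p.1 := by decide +kernel

/-- cycles separating the edges, with the indices of their edges -/
def sepL : List (Fin 56 × List (Fin 56) × List ℕ) :=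
  [(25, [27, 22, 21, 16, 19, 17, 12, 0, 1, 2, 33, 32, 31, 30], [41, 37, 34, 30, 29, 31, 22, 2, 0, 3, 5, 51, 49, 47, 43]),
   (53, [49, 50, 39, 40, 41, 42, 55], [77, 76, 62, 60, 63, 65, 68, 83]),
   (0, [3, 4, 5, 6, 15, 20, 18, 16, 21, 26, 29, 24, 1], [1, 7, 9, 11, 14, 27, 33, 28, 30, 35, 45, 40, 4, 0]),
   (51, [2, 33, 38, 36, 34, 48, 52, 54], [6, 5, 53, 59, 54, 56, 75, 81, 80]),
   (9, [7, 10, 8, 11], [15, 16, 18, 19, 20]),
   (45, [43, 46, 44, 47], [69, 70, 71, 72, 73]),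
   (25, [28, 23, 24, 1, 2, 51, 53, 49, 48, 34, 37, 35, 30], [42, 39, 38, 4, 3, 6, 79, 77, 74, 56, 55, 57, 48, 43]),
   (12, [0, 3, 8, 11, 6, 15, 14, 13], [2, 1, 8, 19, 13, 14, 25, 23, 21]),
   (42, [47, 44, 39, 50, 54, 52, 55], [67, 72, 61, 62, 78, 81, 82, 68]),
   (26, [21, 22, 23, 28], [35, 34, 36, 39, 44]),
   (18, [13, 12, 17, 20], [24, 21, 22, 32, 33]),
   (36, [31, 30, 35, 38], [50, 47, 48, 58, 59]),
   (7, [9, 4, 5, 10], [15, 10, 9, 12, 16]),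
   (43, [45, 40, 41, 46], [69, 64, 63, 66, 70]),
   (27, [22, 23, 24, 29], [37, 36, 38, 40, 46]),
   (16, [18, 13, 14, 19], [28, 24, 23, 26, 29]),
   (34, [36, 31, 32, 37], [54, 50, 49, 52, 55]),
   (7, [9, 4, 3, 0, 1, 2, 51, 53, 55, 42, 47, 45, 43], [15, 10, 7, 1, 0, 3, 6, 79, 83, 68, 67, 73, 69, 17]),
   (27, [25, 28, 26, 29], [41, 42, 44, 45, 46]),
   (17, [19, 14, 15, 20], [31, 26, 25, 27, 32]),
   (35, [37, 32, 33, 38], [57, 52, 51, 53, 58]),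
   (52, [48, 49, 50, 54], [75, 74, 76, 78, 81]),
   (8, [10, 5, 6, 11], [18, 12, 11, 13, 19]),
   (44, [39, 40, 41, 46], [61, 60, 63, 66, 71]),
   (53, [51, 54, 52, 55], [79, 80, 81, 82, 83]),
   (9, [4, 3, 8, 11], [10, 7, 8, 19, 20]),
   (45, [40, 41, 42, 47], [64, 63, 65, 67, 73]),
   (7, [10, 8, 3, 0, 1, 2, 51, 54, 50, 39, 44, 46, 43], [16, 18, 8, 1, 0, 3, 6, 80, 78, 62, 61, 71, 70, 17]),
   (7, [9, 11, 6, 15, 20, 18, 16, 21, 26, 29, 24, 1, 2, 51, 53, 55, 42, 41, 46, 43], [15, 20, 13, 14, 27, 33, 28, 30, 35, 45, 40, 4, 3, 6, 79, 83, 68, 65, 66, 70, 17]),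
   (25, [27, 29, 24, 1, 0, 3, 8, 10, 7, 43, 45, 47, 42, 55, 52, 48, 34, 36, 31, 30], [41, 46, 40, 4, 0, 1, 8, 18, 16, 17, 69, 73, 67, 68, 82, 75, 56, 54, 50, 47, 43]),
   (45, [40, 39, 44, 47], [64, 60, 61, 72, 73])]

lemma sepL_ok : ∀ c ∈ sepL, okB c.1 c.2.1 = true ∧ eds c.1 c.2.1 c.1 = c.2.2.map epS := by
  decide +kernel

def memb (a : ℕ) : List ℕ → Bool
  | [] => false
  | b :: l => Nat.beq a b || memb a l

lemma memb_iff (a : ℕ) (l : List ℕ) : memb a l = true ↔ a ∈ l := by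
  induction l with
  | nil => simp [memb]
  | cons b l ih => simp [memb, ih]

def sepOK : Bool := (List.range 84).all fun a => (List.range 84).all fun b =>
  Nat.beq a b || sepL.any fun c => memb a c.2.2 && !memb b c.2.2

lemma sepOK_true : sepOK = true := by decide +kernel

def epOK : Bool := (List.range 84).all fun a => (List.range 84).all fun b =>
  Nat.beq a b || !(Nat.beq (epAL.getD a 0) (epAL.getD b 0)) || !(Nat.beq (epBL.getD a 0) (epBL.getD b 0))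

lemma epOK_true : epOK = true := by decide +kernel

lemma ep_lt : ∀ a : Fin 84, epA a < epB a := by decide +kernel

end Pool.Agent.H141.Tri56
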