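import Pool.Agent.H141.Tri56.Defs

set_option autoImplicit false

namespace Pool.Agent.H141.Tri56

open Classical

/-- indicator of a proposition -/
noncomputable def ind (p : Prop) : ℕ := if p then 1 else 0

lemma ind_le (p : Prop) : ind p ≤ 1 := by unfold ind; split_ifs <;> simp
lemma ind_pos {p : Prop} (h : p) : ind p = 1 := by unfold ind; simp [h]
lemma ind_neg {p : Prop} (h : ¬ p) : ind p = 0 := by unfold ind; simp [h]

lemma deg3 {W : Type} {H : SimpleGraph W} {M : Fin 4 → H.Subgraph}
    (hM : ∀ i, (M i).IsPerfectMatching) (hc : ∀ e ∈ H.edgeSet, ∃ i, e ∈ (M i).edgeSet)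
    {z y0 y1 y2 : W} (h : ∀ y, H.Adj z y ↔ y = y0 ∨ y = y1 ∨ y = y2)
    (h01 : y0 ≠ y1) (h02 : y0 ≠ y2) (h12 : y1 ≠ y2) :
    (∀ i, ind ((M i).Adj z y0) + ind ((M i).Adj z y1) + ind ((M i).Adj z y2) = 1) ∧
    1 ≤ ind ((M 0).Adj z y0) + ind ((M 1).Adj z y0) + ind ((M 2).Adj z y0)
      + ind ((M 3).Adj z y0) ∧
    ind ((M 0).Adj z y0) + ind ((M 1).Adj z y0) + ind ((M 2).Adj z y0)
      + ind ((M 3).Adj z y0) ≤ 2 := by
  have hs : ∀ i, ind ((M i).Adj z y0) + ind ((M i).Adj z y1) + ind ((M i).Adj z y2) = 1 := by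
    intro i
    obtain ⟨y, hy, hu⟩ := (SimpleGraph.Subgraph.isPerfectMatching_iff.1 (hM i)) z
    have hyH := (h y).1 ((M i).adj_sub hy)
    rcases hyH with rfl | rfl | rfl
    · have n1 : ¬ (M i).Adj z y1 := fun h' => h01 (hu y1 h').symm
      have n2 : ¬ (M i).Adj z y2 := fun h' => h02 (hu y2 h').symm
      rw [ind_pos hy, ind_neg n1, ind_neg n2]
    · have n1 : ¬ (M i).Adj z y0 := fun h' => h01 (hu y0 h')
      have n2 : ¬ (M i).Adj z y2 := fun h' => h12 (hu y2 h').symm
      rw [ind_pos hy, ind_neg n1, ind_neg n2]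
    · have n1 : ¬ (M i).Adj z y0 := fun h' => h02 (hu y0 h')
      have n2 : ¬ (M i).Adj z y1 := fun h' => h12 (hu y1 h')
      rw [ind_pos hy, ind_neg n1, ind_neg n2]
  have hcov : ∀ y, H.Adj z y → 1 ≤ ind ((M 0).Adj z y) + ind ((M 1).Adj z y)
      + ind ((M 2).Adj z y) + ind ((M 3).Adj z y) := by
    intro y hy
    obtain ⟨i, hi⟩ := hc s(z, y) hy
    have hi' : (M i).Adj z y := hi
    have := ind_pos hi'
    fin_cases i <;> simp only [Fin.zero_eta, Fin.mk_one, Fin.reduceFinMk] at this <;> omega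
  refine ⟨hs, hcov y0 ((h y0).2 (Or.inl rfl)), ?_⟩
  have h1 := hcov y1 ((h y1).2 (Or.inr (Or.inl rfl)))
  have h2 := hcov y2 ((h y2).2 (Or.inr (Or.inr rfl)))
  have s0 := hs 0
  have s1 := hs 1
  have s2 := hs 2
  have s3 := hs 3
  omega

variable {V : Type} {G : SimpleGraph V} {U : Set V}

abbrev EV (G : SimpleGraph V) (U : Set V) : Type :=
  {p : V × V // (p.1 ∈ U ∧ G.Adj p.1 p.2) ∨ (p.1 ∉ U ∧ p.2 = p.1)}

noncomputable def port (G : SimpleGraph V) (U : Set V) (v w : V) (h : G.Adj v w) : EV G U :=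
  if hv : v ∈ U then ⟨(v, w), Or.inl ⟨hv, h⟩⟩ else ⟨(v, v), Or.inr ⟨hv, rfl⟩⟩

lemma port_fst (v w : V) (h : G.Adj v w) : (port G U v w h).1.1 = v := by
  unfold port; split_ifs <;> rfl

lemma port_mem {v : V} (hv : v ∈ U) (w : V) (h : G.Adj v w) :
    port G U v w h = ⟨(v, w), Or.inl ⟨hv, h⟩⟩ := by
  unfold port; rw [dif_pos hv]

lemma port_not_mem {v : V} (hv : v ∉ U) (w : V) (h : G.Adj v w) :
    port G U v w h = ⟨(v, v), Or.inr ⟨hv, rfl⟩⟩ := by
  unfold port; rw [dif_neg hv]

lemma port_snd {v : V} (hv : v ∈ U) (w : V) (h : G.Adj v w) : (port G U v w h).1.2 = w := by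
  rw [port_mem hv]

lemma eq_port (y : EV G U) (v : V) (h : G.Adj y.1.1 v) (h2 : y.1.1 ∈ U → y.1.2 = v) :
    y = port G U y.1.1 v h := by
  by_cases hy : y.1.1 ∈ U
  · rw [port_mem hy]
    apply Subtype.ext
    exact Prod.ext rfl (h2 hy)
  · rw [port_not_mem hy]
    apply Subtype.ext
    rcases y.2 with h' | h'
    · exact absurd h'.1 hy
    · exact Prod.ext rfl h'.2

/-- the edge `v w` of `G` is used by the `i`-th matching -/
def Au (M : Fin 4 → (expand G U).Subgraph) (i : Fin 4) (v w : V) : Prop :=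
  ∃ h : G.Adj v w, (M i).Adj (port G U v w h) (port G U w v h.symm)

lemma Au_symm (M : Fin 4 → (expand G U).Subgraph) (i : Fin 4) (v w : V) :
    Au M i v w ↔ Au M i w v := by
  constructor
  · rintro ⟨h, h'⟩; exact ⟨h.symm, h'.symm⟩
  · rintro ⟨h, h'⟩; exact ⟨h.symm, h'.symm⟩

lemma vert {M : Fin 4 → (expand G U).Subgraph}
    (hM : ∀ i, (M i).IsPerfectMatching)
    (hc : ∀ e ∈ (expand G U).edgeSet, ∃ i, e ∈ (M i).edgeSet)
    {v a b c : V} (hN : ∀ w, G.Adj v w ↔ w = a ∨ w = b ∨ w = c)
    (hab : a ≠ b) (hac : a ≠ c) (hbc : b ≠ c) :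
    (∀ i, ind (Au M i v a) + ind (Au M i v b) + ind (Au M i v c) = 1 ∨
      ind (Au M i v a) + ind (Au M i v b) + ind (Au M i v c) = 3) ∧
    (v ∉ U → ∀ i, ind (Au M i v a) + ind (Au M i v b) + ind (Au M i v c) = 1) ∧
    1 ≤ ind (Au M 0 v a) + ind (Au M 1 v a) + ind (Au M 2 v a) + ind (Au M 3 v a) ∧
    ind (Au M 0 v a) + ind (Au M 1 v a) + ind (Au M 2 v a) + ind (Au M 3 v a) ≤ 2 := by
  have ha : G.Adj v a := (hN a).2 (Or.inl rfl)
  have hb : G.Adj v b := (hN b).2 (Or.inr (Or.inl rfl))
  have hcc : G.Adj v c := (hN c).2 (Or.inr (Or.inr rfl))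
  have hAu : ∀ i w (h : G.Adj v w), Au M i v w ↔
      (M i).Adj (port G U v w h) (port G U w v h.symm) :=
    fun i w h => ⟨fun ⟨_, h'⟩ => h', fun h' => ⟨h, h'⟩⟩
  have pne : ∀ {w w' : V} (h : G.Adj w v) (h' : G.Adj w' v), w ≠ w' →
      port G U w v h ≠ port G U w' v h' := by
    intro w w' h h' hne heq
    apply hne
    have := congrArg (fun t : EV G U => t.1.1) heq
    simpa [port_fst] using this
  by_cases hv : v ∈ U
  · -- expanded vertex
    have key : ∀ (a b c : V) (ha : G.Adj v a) (hb : G.Adj v b) (hcc : G.Adj v c),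
        (∀ w, G.Adj v w ↔ w = a ∨ w = b ∨ w = c) → a ≠ b → a ≠ c → b ≠ c →
        ∀ y, (expand G U).Adj (port G U v a ha) y ↔
          y = port G U a v ha.symm ∨ y = port G U v b hb ∨ y = port G U v c hcc := by
      intro a b c ha hb hcc hN hab hac hbc y
      rw [port_mem hv, port_mem hv, port_mem hv]
      constructor
      · rintro (⟨h1, h2⟩ | ⟨h1, h2, h3⟩)
        · right
          simp only at h1 h2
          rcases y.2 with h' | h'
          · have hadj : G.Adj v y.1.2 := by rw [h1]; exact h'.2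
            rcases (hN _).1 hadj with e | e | e
            · exact absurd e.symm h2
            · left; exact Subtype.ext (Prod.ext h1.symm e)
            · right; exact Subtype.ext (Prod.ext h1.symm e)
          · exact absurd (h1 ▸ hv) h'.1
        · left
          simp only at h1 h2 h3
          have e : a = y.1.1 := h2 hv
          have hy := eq_port y v h1.symm h3
          subst e
          exact hy
      · rintro (rfl | rfl | rfl)
        · right
          refine ⟨?_, ?_, ?_⟩
          · rw [port_fst]; exact ha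
          · intro _; rw [port_fst]
          · intro h; rw [port_fst] at h; rw [port_snd h]
        · left; exact ⟨rfl, hab⟩
        · left; exact ⟨rfl, hac⟩
    have zne : ∀ {w w' : V} (h : G.Adj v w) (h' : G.Adj v w'), w ≠ w' →
        port G U v w h ≠ port G U v w' h' := by
      intro w w' h h' hne heq
      apply hne
      have := congrArg (fun t : EV G U => t.1.2) heq
      simpa [port_snd hv] using this
    have pz : ∀ {w w' : V} (h : G.Adj w v) (h' : G.Adj v w'),
        port G U w v h ≠ port G U v w' h' := by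
      intro w w' h h' heq
      have := congrArg (fun t : EV G U => t.1.1) heq
      simp only [port_fst] at this
      exact h.ne this
    have D1 := deg3 hM hc (key a b c ha hb hcc hN hab hac hbc) (pz _ _) (pz _ _) (zne _ _ hbc)
    have D2 := deg3 hM hc (key b a c hb ha hcc (fun w => by rw [hN w]; tauto) hab.symm hbc hac)
      (pz _ _) (pz _ _) (zne _ _ hac)
    have D3 := deg3 hM hc (key c a b hcc ha hb (fun w => by rw [hN w]; tauto) hac.symm hbc.symm
      hab) (pz _ _) (pz _ _) (zne _ _ hab)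
    have odd : ∀ i, ind (Au M i v a) + ind (Au M i v b) + ind (Au M i v c) = 1 ∨
        ind (Au M i v a) + ind (Au M i v b) + ind (Au M i v c) = 3 := by
      intro i
      have d1 := D1.1 i
      have d2 := D2.1 i
      have d3 := D3.1 i
      rw [← hAu i a ha] at d1
      rw [← hAu i b hb, SimpleGraph.Subgraph.adj_comm (M i) (port G U v b hb) (port G U v a ha)]
        at d2
      rw [← hAu i c hcc, SimpleGraph.Subgraph.adj_comm (M i) (port G U v c hcc) (port G U v a ha),
        SimpleGraph.Subgraph.adj_comm (M i) (port G U v c hcc) (port G U v b hb)] at d3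
      have l1 := ind_le (Au M i v a)
      have l2 := ind_le (Au M i v b)
      have l3 := ind_le (Au M i v c)
      omega
    refine ⟨odd, fun h => absurd hv h, ?_⟩
    have := D1.2
    simp only [← hAu _ a ha] at this
    exact this
  · have key : ∀ y, (expand G U).Adj (⟨(v, v), Or.inr ⟨hv, rfl⟩⟩ : EV G U) y ↔
        y = port G U a v ha.symm ∨ y = port G U b v hb.symm ∨ y = port G U c v hcc.symm := by
      intro y
      constructor
      · rintro (⟨h1, h2⟩ | ⟨h1, h2, h3⟩)
        · simp only at h1 h2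
          rcases y.2 with h' | h'
          · exact absurd (h1 ▸ h'.1) hv
          · exact absurd (h1.trans h'.2.symm) h2
        · simp only at h1 h2 h3
          have hy := eq_port y v h1.symm h3
          rcases (hN _).1 h1 with e | e | e
          · left; subst e; exact hy
          · right; left; subst e; exact hy
          · right; right; subst e; exact hy
      · have gen : ∀ w (h : G.Adj v w),
            (expand G U).Adj (⟨(v, v), Or.inr ⟨hv, rfl⟩⟩ : EV G U) (port G U w v h.symm) := by
          intro w h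
          right
          refine ⟨?_, ?_, ?_⟩
          · rw [port_fst]; exact h
          · intro h'; exact absurd h' hv
          · intro h'; rw [port_fst] at h'; rw [port_snd h']
        rintro (rfl | rfl | rfl)
        · exact gen a ha
        · exact gen b hb
        · exact gen c hcc
    have D := deg3 hM hc key (pne _ _ hab) (pne _ _ hac) (pne _ _ hbc)
    have e : ∀ i w (h : G.Adj v w), (M i).Adj (⟨(v, v), Or.inr ⟨hv, rfl⟩⟩ : EV G U)
        (port G U w v h.symm) ↔ Au M i v w := by
      intro i w h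
      rw [hAu i w h, port_not_mem hv w h]
    have hs : ∀ i, ind (Au M i v a) + ind (Au M i v b) + ind (Au M i v c) = 1 := by
      intro i
      have := D.1 i
      rw [e i a ha, e i b hb, e i c hcc] at this
      exact this
    refine ⟨fun i => Or.inl (hs i), fun _ => hs, ?_⟩
    have := D.2
    simp only [e _ a ha] at this
    exact this

end Pool.Agent.H141.Tri56
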