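import Mathlib

set_option autoImplicit false

/-! Perfect matchings of the Petersen graph, with edges numbered `0..14`. -/

namespace Pool.Agent.H141.Tri56

/-- the three edges at each vertex of the Petersen graph -/
def incP : Fin 10 → Fin 3 → Fin 15 :=
  ![![0, 2, 12],
    ![0, 3, 5],
    ![3, 6, 8],
    ![6, 9, 11],
    ![9, 12, 14],
    ![1, 2, 10],
    ![4, 5, 13],
    ![1, 7, 8],
    ![4, 10, 11],
    ![7, 13, 14]]

/-- the sum of the values at the edges at the vertex `v` -/
def vs (y : Fin 15 → ℕ) (v : Fin 10) : ℕ := y (incP v 0) + y (incP v 1) + y (incP v 2)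

lemma vs_0 (y : Fin 15 → ℕ) : vs y 0 = y 0 + y 2 + y 12 := rfl
lemma vs_1 (y : Fin 15 → ℕ) : vs y 1 = y 0 + y 3 + y 5 := rfl
lemma vs_2 (y : Fin 15 → ℕ) : vs y 2 = y 3 + y 6 + y 8 := rfl
lemma vs_3 (y : Fin 15 → ℕ) : vs y 3 = y 6 + y 9 + y 11 := rfl
lemma vs_4 (y : Fin 15 → ℕ) : vs y 4 = y 9 + y 12 + y 14 := rfl
lemma vs_5 (y : Fin 15 → ℕ) : vs y 5 = y 1 + y 2 + y 10 := rfl
lemma vs_6 (y : Fin 15 → ℕ) : vs y 6 = y 4 + y 5 + y 13 := rfl
lemma vs_7 (y : Fin 15 → ℕ) : vs y 7 = y 1 + y 7 + y 8 := rfl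
lemma vs_8 (y : Fin 15 → ℕ) : vs y 8 = y 4 + y 10 + y 11 := rfl
lemma vs_9 (y : Fin 15 → ℕ) : vs y 9 = y 7 + y 13 + y 14 := rfl

lemma par0 (y : Fin 15 → ℕ) (h0 : ∀ e, y e ≤ 1) (h : ∀ v : Fin 10, v ≠ 0 → vs y v = 1 ∨ vs y v = 3) :
    vs y 0 = 1 ∨ vs y 0 = 3 := by
  have h1' : vs y 1 % 2 = 1 := by have := h 1 (by decide); omega
  have h2' : vs y 2 % 2 = 1 := by have := h 2 (by decide); omega
  have h3' : vs y 3 % 2 = 1 := by have := h 3 (by decide); omega
  have h4' : vs y 4 % 2 = 1 := by have := h 4 (by decide); omega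
  have h5' : vs y 5 % 2 = 1 := by have := h 5 (by decide); omega
  have h6' : vs y 6 % 2 = 1 := by have := h 6 (by decide); omega
  have h7' : vs y 7 % 2 = 1 := by have := h 7 (by decide); omega
  have h8' : vs y 8 % 2 = 1 := by have := h 8 (by decide); omega
  have h9' : vs y 9 % 2 = 1 := by have := h 9 (by decide); omega

  rw [vs_1] at h1'
  rw [vs_2] at h2'
  rw [vs_3] at h3'
  rw [vs_4] at h4'
  rw [vs_5] at h5'
  rw [vs_6] at h6'
  rw [vs_7] at h7'
  rw [vs_8] at h8'
  rw [vs_9] at h9'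
  have e0 := h0 0
  have e1 := h0 2
  have e2 := h0 12
  rw [vs_0]
  have : (y 0 + y 2 + y 12) % 2 = 1 := by omega
  omega

def pmT : Fin 6 → Fin 15 → Bool :=
  ![![false, false, true, true, true, false, false, true, false, true, false, false, false, false, false],
    ![false, false, false, false, false, true, true, true, false, false, true, false, true, false, false],
    ![true, false, false, false, false, false, false, false, true, true, true, false, false, true, false],
    ![false, true, false, true, false, false, false, false, false, false, false, true, true, true, false],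
    ![true, true, false, false, true, false, true, false, false, false, false, false, false, false, true],
    ![false, false, true, false, false, true, false, false, true, false, false, true, false, false, true]]


def chk (b : Fin 15 → Bool) : Bool :=
  (List.finRange 6).any fun k => (List.finRange 15).all fun e => b e == pmT k e

lemma chk_spec {b : Fin 15 → Bool} (h : chk b = true) : ∃ k : Fin 6, ∀ e, b e = pmT k e := by
  unfold chk at h
  rw [List.any_eq_true] at h
  obtain ⟨k, _, hk⟩ := h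
  rw [List.all_eq_true] at hk
  refine ⟨k, fun e => ?_⟩
  have := hk e (List.mem_finRange e)
  simpa using this

def ex1 (a b c : Bool) : Bool := (a && !b && !c) || (!a && b && !c) || (!a && !b && c)

set_option synthInstance.maxSize 100000 in
set_option maxRecDepth 100000 in
lemma pmcases : ∀ b0 b2 b12 : Bool, ex1 b0 b2 b12 = true → ∀ b3 b5 : Bool, ex1 b0 b3 b5 = true → ∀ b9 b14 : Bool, ex1 b9 b12 b14 = true → ∀ b1 b10 : Bool, ex1 b1 b2 b10 = true → ∀ b6 b8 : Bool, ex1 b3 b6 b8 = true → ∀ b11 : Bool, ex1 b6 b9 b11 = true → ∀ b4 b13 : Bool, ex1 b4 b5 b13 = true → ∀ b7 : Bool, ex1 b1 b7 b8 = true → ex1 b4 b10 b11 = true → ex1 b7 b13 b14 = true → chk ![b0, b1, b2, b3, b4, b5, b6, b7, b8, b9, b10, b11, b12, b13, b14] = true := by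
  decide +kernel

lemma pmcover : ∀ a b c d : Fin 6, ∃ e : Fin 15, pmT a e = false ∧ pmT b e = false ∧
    pmT c e = false ∧ pmT d e = false := by
  decide +kernel

lemma ex1_of {a b c : ℕ} (h : a + b + c = 1) :
    ex1 (decide (a = 1)) (decide (b = 1)) (decide (c = 1)) = true := by
  have ha : a ≤ 1 := by omega
  have hb : b ≤ 1 := by omega
  have hc : c ≤ 1 := by omega
  interval_cases a <;> interval_cases b <;> interval_cases c <;> simp_all [ex1]

lemma pm_exists (y : Fin 15 → ℕ) (h : ∀ v, vs y v = 1) :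
    ∃ k : Fin 6, ∀ e, decide (y e = 1) = pmT k e := by
  have hchk := pmcases (decide (y 0 = 1)) (decide (y 2 = 1)) (decide (y 12 = 1)) (ex1_of (by have := h 0; rw [vs_0] at this; exact this)) (decide (y 3 = 1)) (decide (y 5 = 1)) (ex1_of (by have := h 1; rw [vs_1] at this; exact this)) (decide (y 9 = 1)) (decide (y 14 = 1)) (ex1_of (by have := h 4; rw [vs_4] at this; exact this)) (decide (y 1 = 1)) (decide (y 10 = 1)) (ex1_of (by have := h 5; rw [vs_5] at this; exact this)) (decide (y 6 = 1)) (decide (y 8 = 1)) (ex1_of (by have := h 2; rw [vs_2] at this; exact this)) (decide (y 11 = 1)) (ex1_of (by have := h 3; rw [vs_3] at this; exact this)) (decide (y 4 = 1)) (decide (y 13 = 1)) (ex1_of (by have := h 6; rw [vs_6] at this; exact this)) (decide (y 7 = 1)) (ex1_of (by have := h 7; rw [vs_7] at this; exact this)) (ex1_of (by have := h 8; rw [vs_8] at this; exact this)) (ex1_of (by have := h 9; rw [vs_9] at this; exact this))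
  obtain ⟨k, hk⟩ := chk_spec hchk
  refine ⟨k, ?_⟩
  intro e
  rw [← hk e]
  fin_cases e <;> rfl

lemma no_cover (y : Fin 4 → Fin 15 → ℕ) (h : ∀ i v, vs (y i) v = 1)
    (hc : ∀ e, 1 ≤ y 0 e + y 1 e + y 2 e + y 3 e) : False := by
  obtain ⟨a, ha⟩ := pm_exists (y 0) (h 0)
  obtain ⟨b, hb⟩ := pm_exists (y 1) (h 1)
  obtain ⟨c, hcc⟩ := pm_exists (y 2) (h 2)
  obtain ⟨d, hd⟩ := pm_exists (y 3) (h 3)
  obtain ⟨e, e1, e2, e3, e4⟩ := pmcover a b c d
  have le1 : ∀ i e, y i e ≤ 1 := by
    intro i e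
    have : ∃ v, ∃ k, incP v k = e := by revert e; decide +kernel
    obtain ⟨v, k, hk⟩ := this
    have := h i v
    unfold vs at this
    fin_cases k <;> simp only [Fin.zero_eta, Fin.mk_one, Fin.reduceFinMk] at hk <;> rw [hk] at this <;> omega
  have z0 : y 0 e ≠ 1 := by have := ha e; rw [e1] at this; simpa using this
  have z1 : y 1 e ≠ 1 := by have := hb e; rw [e2] at this; simpa using this
  have z2 : y 2 e ≠ 1 := by have := hcc e; rw [e3] at this; simpa using this
  have z3 : y 3 e ≠ 1 := by have := hd e; rw [e4] at this; simpa using this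
  have := hc e
  have l0 := le1 0 e
  have l1 := le1 1 e
  have l2 := le1 2 e
  have l3 := le1 3 e
  omega

/-- The Petersen lemma: four families of odd sums covering everything have a vertex at which the
total is 6. -/
lemma petersen (y : Fin 4 → Fin 15 → ℕ) (h0 : ∀ i e, y i e ≤ 1)
    (h : ∀ i, ∀ v : Fin 10, v ≠ 0 → vs (y i) v = 1 ∨ vs (y i) v = 3)
    (h1 : ∀ e, 1 ≤ y 0 e + y 1 e + y 2 e + y 3 e)
    (h2 : ∀ e, y 0 e + y 1 e + y 2 e + y 3 e ≤ 2) :
    (∀ i, vs (y i) 0 = 1 ∨ vs (y i) 0 = 3) ∧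
    ∃ v : Fin 10, vs (y 0) v + vs (y 1) v + vs (y 2) v + vs (y 3) v = 6 := by
  have hp : ∀ i, vs (y i) 0 = 1 ∨ vs (y i) 0 = 3 := fun i => par0 (y i) (h0 i) (h i)
  refine ⟨hp, ?_⟩
  by_contra hne
  push Not at hne
  have hall : ∀ i, ∀ v, vs (y i) v = 1 ∨ vs (y i) v = 3 := by
    intro i v
    by_cases hv : v = 0
    · rw [hv]; exact hp i
    · exact h i v hv
  apply no_cover y _ h1
  intro i v
  have a0 := hall 0 v
  have a1 := hall 1 v
  have a2 := hall 2 v
  have a3 := hall 3 v
  have hn := hne v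
  have b0 := h2 (incP v 0)
  have b1 := h2 (incP v 1)
  have b2 := h2 (incP v 2)
  unfold vs at a0 a1 a2 a3 hn ⊢
  fin_cases i <;> simp only [Fin.zero_eta, Fin.mk_one, Fin.reduceFinMk] <;> omega

end Pool.Agent.H141.Tri56
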